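import Pool.Agent.H3.OVW.Final

/-!
The Ordered Variable Word theorem (Carlson–Simpson) admits cone avoidance: every computable
instance has a solution that does not compute a given non-computable set.
-/

namespace Pool.Agent.Results.MP_d1c297_lc.ConeAvoidance

theorem result (k l : ℕ) (f : List (Fin k) → Fin l) (hf : Computable f)
    (C : Set ℕ) (hC : ¬ ComputablePred (fun n => n ∈ C)) :
    ∃ (c₀ : List (Fin k)) (w : ℕ → List (Option (Fin k))),
      OVW.IsSolution f c₀ w ∧
      ¬ TuringReducible (OVW.chi C) (OVW.chi (OVW.solCode c₀ w)) :=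
  OVW.cone_avoidance_all k l f hf C hC

end Pool.Agent.Results.MP_d1c297_lc.ConeAvoidance
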